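import Mathlib

/-!
# Products of involutions among quaternionic unitary matrices
-/

set_option autoImplicit false
set_option linter.unusedSectionVars false

open Matrix Quaternion

namespace Pool.Agent.X192.SP

variable {ι κ : Type} [Fintype ι] [DecidableEq ι] [Fintype κ] [DecidableEq κ]

/-- unitary matrices over a star ring -/
def Un {R : Type} [Ring R] [StarRing R] (A : Matrix ι ι R) : Prop := Aᴴ * A = 1 ∧ A * Aᴴ = 1

section gen

variable {R : Type} [Ring R] [StarRing R]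

theorem Un.one : Un (1 : Matrix ι ι R) := by simp [Un]

theorem Un.mul {A B : Matrix ι ι R} (hA : Un A) (hB : Un B) : Un (A * B) := by
  constructor
  · rw [conjTranspose_mul, mul_assoc, ← mul_assoc Aᴴ, hA.1, one_mul, hB.1]
  · rw [conjTranspose_mul, mul_assoc, ← mul_assoc B, hB.2, one_mul, hA.2]

theorem Un.ct {A : Matrix ι ι R} (hA : Un A) : Un Aᴴ := by
  constructor
  · rw [conjTranspose_conjTranspose, hA.2]
  · rw [conjTranspose_conjTranspose, hA.1]

theorem Un.conj {A g : Matrix ι ι R} (hA : Un A) (hg : Un g) : Un (g * A * gᴴ) :=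
  (hg.mul hA).mul hg.ct

theorem Un.blk {A : Matrix ι ι R} {B : Matrix κ κ R} (hA : Un A) (hB : Un B) :
    Un (fromBlocks A 0 0 B) := by
  constructor
  · rw [fromBlocks_conjTranspose, fromBlocks_multiply]
    simp [hA.1, hB.1, fromBlocks_one]
  · rw [fromBlocks_conjTranspose, fromBlocks_multiply]
    simp [hA.2, hB.2, fromBlocks_one]

theorem Un.re {A : Matrix ι ι R} (hA : Un A) (e : κ ≃ ι) : Un (A.submatrix e e) := by
  constructor
  · rw [conjTranspose_submatrix, submatrix_mul_equiv, hA.1, submatrix_one_equiv]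
  · rw [conjTranspose_submatrix, submatrix_mul_equiv, hA.2, submatrix_one_equiv]

/-- products of `k` unitary involutions -/
def Pr : ℕ → Matrix ι ι R → Prop
  | 0, A => A = 1
  | k + 1, A => ∃ B C, Un B ∧ B * B = 1 ∧ Pr k C ∧ A = B * C

theorem Pr.zero : Pr 0 (1 : Matrix ι ι R) := rfl

theorem Pr.one {k : ℕ} : Pr k (1 : Matrix ι ι R) := by
  induction k with
  | zero => rfl
  | succ k ih => exact ⟨1, 1, Un.one, one_mul 1, ih, (one_mul 1).symm⟩

theorem Pr.inv {A : Matrix ι ι R} (hA : Un A) (h : A * A = 1) : Pr 1 A :=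
  ⟨A, 1, hA, h, rfl, (mul_one A).symm⟩

theorem Pr.mul {k l : ℕ} {A B : Matrix ι ι R} (hA : Pr k A) (hB : Pr l B) :
    Pr (k + l) (A * B) := by
  induction k generalizing A with
  | zero =>
    rw [show A = 1 from hA, one_mul, zero_add]
    exact hB
  | succ k ih =>
    obtain ⟨X, C, hX, hX', hC, rfl⟩ := hA
    rw [show k + 1 + l = (k + l) + 1 by omega]
    exact ⟨X, C * B, hX, hX', ih hC, mul_assoc X C B⟩

theorem Pr.conj {k : ℕ} {A g : Matrix ι ι R} (hA : Pr k A) (hg : Un g) :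
    Pr k (g * A * gᴴ) := by
  induction k generalizing A with
  | zero =>
    rw [show A = 1 from hA, mul_one]
    exact hg.2
  | succ k ih =>
    obtain ⟨X, C, hX, hX', hC, rfl⟩ := hA
    refine ⟨g * X * gᴴ, g * C * gᴴ, hX.conj hg, ?_, ih hC, ?_⟩
    · calc g * X * gᴴ * (g * X * gᴴ) = g * X * (gᴴ * g) * X * gᴴ := by
            simp only [mul_assoc]
        _ = g * (X * X) * gᴴ := by rw [hg.1, mul_one]; simp only [mul_assoc]
        _ = 1 := by rw [hX', mul_one, hg.2]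
    · calc g * (X * C) * gᴴ = g * X * 1 * C * gᴴ := by simp only [mul_assoc, one_mul]
        _ = g * X * (gᴴ * g) * C * gᴴ := by rw [hg.1]
        _ = g * X * gᴴ * (g * C * gᴴ) := by simp only [mul_assoc]

/-- the version with the conjugation undone -/
theorem Pr.of_conj {k : ℕ} {A g : Matrix ι ι R} (hg : Un g) (hA : Pr k (g * A * gᴴ)) :
    Pr k A := by
  have h := hA.conj hg.ct
  rw [conjTranspose_conjTranspose] at h
  have e : gᴴ * (g * A * gᴴ) * g = A := by
    calc gᴴ * (g * A * gᴴ) * g = (gᴴ * g) * A * (gᴴ * g) := by simp only [mul_assoc]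
      _ = A := by rw [hg.1, one_mul, mul_one]
  rwa [e] at h

theorem Pr.blk {k : ℕ} {A : Matrix ι ι R} {B : Matrix κ κ R} (hA : Pr k A) (hB : Pr k B) :
    Pr k (fromBlocks A 0 0 B) := by
  induction k generalizing A B with
  | zero =>
    rw [show A = 1 from hA, show B = 1 from hB]
    exact fromBlocks_one
  | succ k ih =>
    obtain ⟨X, C, hX, hX', hC, rfl⟩ := hA
    obtain ⟨Y, D, hY, hY', hD, rfl⟩ := hB
    refine ⟨fromBlocks X 0 0 Y, fromBlocks C 0 0 D, hX.blk hY, ?_, ih hC hD, ?_⟩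
    · rw [fromBlocks_multiply]
      simp [hX', hY', fromBlocks_one]
    · rw [fromBlocks_multiply]
      simp

theorem Pr.re {k : ℕ} {A : Matrix ι ι R} (hA : Pr k A) (e : κ ≃ ι) :
    Pr k (A.submatrix e e) := by
  induction k generalizing A with
  | zero =>
    rw [show A = 1 from hA]
    exact submatrix_one_equiv e
  | succ k ih =>
    obtain ⟨X, C, hX, hX', hC, rfl⟩ := hA
    refine ⟨X.submatrix e e, C.submatrix e e, hX.re e, ?_, ih hC, ?_⟩
    · rw [submatrix_mul_equiv, hX', submatrix_one_equiv]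
    · rw [submatrix_mul_equiv]

theorem Pr.of_re {k : ℕ} {A : Matrix ι ι R} (e : κ ≃ ι) (hA : Pr k (A.submatrix e e)) :
    Pr k A := by
  have h := hA.re e.symm
  rw [submatrix_submatrix] at h
  simpa using h

/-- `1 × 1` matrices -/
def c1 (a : R) : Matrix Unit Unit R := fun _ _ => a

theorem c1_mul (a b : R) : c1 a * c1 b = c1 (a * b) := by
  ext i j
  simp [c1, Matrix.mul_apply]

theorem c1_add (a b : R) : c1 a + c1 b = c1 (a + b) := rfl

theorem c1_one : c1 (1 : R) = 1 := by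
  ext i j
  simp [c1]

theorem c1_zero : c1 (0 : R) = 0 := rfl

theorem c1_ct (a : R) : (c1 a)ᴴ = c1 (star a) := rfl

/-- `2 × 2` matrices -/
def m2 (a b c d : R) : Matrix (Unit ⊕ Unit) (Unit ⊕ Unit) R :=
  fromBlocks (c1 a) (c1 b) (c1 c) (c1 d)

theorem m2_mul (a b c d a' b' c' d' : R) : m2 a b c d * m2 a' b' c' d' =
    m2 (a * a' + b * c') (a * b' + b * d') (c * a' + d * c') (c * b' + d * d') := by
  simp only [m2, fromBlocks_multiply, c1_mul, c1_add]

theorem m2_ct (a b c d : R) : (m2 a b c d)ᴴ = m2 (star a) (star c) (star b) (star d) := by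
  simp only [m2, fromBlocks_conjTranspose, c1_ct]

theorem m2_one : m2 (1 : R) 0 0 1 = 1 := by
  simp only [m2, c1_one, c1_zero, fromBlocks_one]

theorem m2_diag (a d : R) : m2 a 0 0 d = fromBlocks (c1 a) 0 0 (c1 d) := rfl

/-- `diag(v, v̄)` is a product of two involutions -/
theorem pr_pair {v : R} (h1 : star v * v = 1) (h2 : v * star v = 1) :
    Pr 2 (m2 v 0 0 (star v)) := by
  have e : m2 v 0 0 (star v) = m2 0 v (star v) 0 * m2 0 1 1 0 := by
    rw [m2_mul]; simp
  rw [e]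
  refine Pr.mul (k := 1) (l := 1) (Pr.inv ?_ ?_) (Pr.inv ?_ ?_)
  · constructor
    · rw [m2_ct, m2_mul]; simp [h1, h2, m2_one]
    · rw [m2_ct, m2_mul]; simp [h1, h2, m2_one]
  · rw [m2_mul]; simp [h1, h2, m2_one]
  · constructor
    · rw [m2_ct, m2_mul]; simp [m2_one]
    · rw [m2_ct, m2_mul]; simp [m2_one]
  · rw [m2_mul]; simp [m2_one]

end gen

/-! ### quaternions -/

/-- the quaternion `j` -/
def jq : ℍ[ℝ] := ⟨0, 0, 1, 0⟩

theorem jq_re : jq.re = 0 := rfl
theorem jq_imI : jq.imI = 0 := rfl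
theorem jq_imJ : jq.imJ = 1 := rfl
theorem jq_imK : jq.imK = 0 := rfl

theorem star_jq : star jq = -jq := by
  ext <;> simp [jq_re, jq_imI, jq_imJ, jq_imK]

theorem jq_sq : jq * jq = -1 := by
  ext <;> simp [jq_re, jq_imI, jq_imJ, jq_imK]

theorem jq_conj (z : ℂ) : jq * (z : ℍ[ℝ]) = star (z : ℍ[ℝ]) * jq := by
  ext <;> simp [jq_re, jq_imI, jq_imJ, jq_imK]

theorem star_coe_eq (z : ℂ) : star (z : ℍ[ℝ]) = ((star z : ℂ) : ℍ[ℝ]) := by
  ext <;> simp

/-- `diag(w, w)` is a product of two involutions -/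
theorem pr_same {w : ℂ} (h : star w * w = 1) : Pr 2 (m2 (w : ℍ[ℝ]) 0 0 (w : ℍ[ℝ])) := by
  have h1 : star (w : ℍ[ℝ]) * (w : ℍ[ℝ]) = 1 := by
    rw [star_coe_eq, ← Quaternion.coeComplex_mul, h, Quaternion.coeComplex_one]
  have h2 : (w : ℍ[ℝ]) * star (w : ℍ[ℝ]) = 1 := by
    rw [star_coe_eq, ← Quaternion.coeComplex_mul, mul_comm, h, Quaternion.coeComplex_one]
  have hj : star jq * jq = 1 := by rw [star_jq, neg_mul, jq_sq, neg_neg]
  have hj' : jq * star jq = 1 := by rw [star_jq, mul_neg, jq_sq, neg_neg]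
  have hg : Un (m2 (1 : ℍ[ℝ]) 0 0 jq) := by
    constructor
    · rw [m2_ct, m2_mul]; simp [hj, m2_one]
    · rw [m2_ct, m2_mul]; simp [hj', m2_one]
  refine Pr.of_conj hg ?_
  have e : m2 (1 : ℍ[ℝ]) 0 0 jq * m2 (w : ℍ[ℝ]) 0 0 (w : ℍ[ℝ]) * (m2 (1 : ℍ[ℝ]) 0 0 jq)ᴴ =
      m2 (w : ℍ[ℝ]) 0 0 (star (w : ℍ[ℝ])) := by
    rw [m2_ct, m2_mul, m2_mul]
    simp [jq_conj, mul_assoc, hj']
  rw [e]
  exact pr_pair h1 h2

/-- `diag(z₁, z₂)` is a product of four involutions -/
theorem pr_diag {z₁ z₂ : ℂ} (h₁ : star z₁ * z₁ = 1) (h₂ : star z₂ * z₂ = 1) :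
    Pr 4 (m2 (z₁ : ℍ[ℝ]) 0 0 (z₂ : ℍ[ℝ])) := by
  obtain ⟨w, hw⟩ := IsAlgClosed.exists_pow_nat_eq (z₁ * z₂) (n := 2) two_pos
  have hww : star w * w = 1 := by
    have h3 : (star w * w) ^ 2 = 1 := by
      rw [mul_pow, ← star_pow, hw, star_mul']
      calc star z₁ * star z₂ * (z₁ * z₂) = (star z₁ * z₁) * (star z₂ * z₂) := by ring
        _ = 1 := by rw [h₁, h₂, mul_one]
    have h4 : star w * w = ((Complex.normSq w : ℝ) : ℂ) := by
      rw [mul_comm]
      exact Complex.mul_conj w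
    rw [h4] at h3 ⊢
    have h5 : (Complex.normSq w) ^ 2 = 1 := by exact_mod_cast h3
    have h6 : 0 ≤ Complex.normSq w := Complex.normSq_nonneg w
    have h7 : Complex.normSq w = 1 := by nlinarith
    rw [h7]; simp
  have hv : star (z₁ * star w) * (z₁ * star w) = 1 := by
    rw [star_mul', star_star]
    calc star z₁ * w * (z₁ * star w) = (star z₁ * z₁) * (star w * w) := by ring
      _ = 1 := by rw [h₁, hww, mul_one]
  have e : m2 (z₁ : ℍ[ℝ]) 0 0 (z₂ : ℍ[ℝ]) = m2 (w : ℍ[ℝ]) 0 0 (w : ℍ[ℝ]) *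
      m2 ((z₁ * star w : ℂ) : ℍ[ℝ]) 0 0 (star ((z₁ * star w : ℂ) : ℍ[ℝ])) := by
    rw [m2_mul]
    simp only [mul_zero, zero_mul, add_zero, zero_add, star_coe_eq,
      ← Quaternion.coeComplex_mul]
    have e1 : w * (z₁ * star w) = z₁ := by
      calc w * (z₁ * star w) = z₁ * (star w * w) := by ring
        _ = z₁ := by rw [hww, mul_one]
    have e2 : w * star (z₁ * star w) = z₂ := by
      rw [star_mul', star_star]
      calc w * (star z₁ * w) = star z₁ * w ^ 2 := by ring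
        _ = (star z₁ * z₁) * z₂ := by rw [hw]; ring
        _ = z₂ := by rw [h₁, one_mul]
    rw [e1, e2]
  rw [e]
  refine Pr.mul (k := 2) (l := 2) (pr_same hww) (pr_pair ?_ ?_)
  · rw [star_coe_eq, ← Quaternion.coeComplex_mul, hv, Quaternion.coeComplex_one]
  · rw [star_coe_eq, ← Quaternion.coeComplex_mul, mul_comm, hv, Quaternion.coeComplex_one]

end Pool.Agent.X192.SP
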