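import Pool.Agent.X192.SP.Basic

set_option autoImplicit false
set_option linter.unusedSectionVars false

open Matrix Quaternion

namespace Pool.Agent.X192.SP

variable {ι κ : Type} [Fintype ι] [DecidableEq ι] [Fintype κ] [DecidableEq κ]

theorem sm_apply (q : ℍ[ℝ]) (x : ι → ℍ[ℝ]) (i : ι) : (MulOpposite.op q • x) i = x i * q := rfl

omit [DecidableEq ι] in
theorem mulVec_sm (A : Matrix ι ι ℍ[ℝ]) (x : ι → ℍ[ℝ]) (q : ℍ[ℝ]) :
    A *ᵥ (MulOpposite.op q • x) = MulOpposite.op q • (A *ᵥ x) := by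
  ext1 i
  simp only [Matrix.mulVec, dotProduct, sm_apply, Finset.sum_mul, mul_assoc]

theorem sm_coe (r : ℝ) (x : ι → ℍ[ℝ]) : MulOpposite.op (r : ℍ[ℝ]) • x = r • x := by
  ext1 i
  rw [sm_apply, Pi.smul_apply, ← Quaternion.coe_mul_eq_smul, Quaternion.coe_commutes]

omit [DecidableEq ι] in
theorem dot_sm (x y : ι → ℍ[ℝ]) (q : ℍ[ℝ]) :
    x ⬝ᵥ (MulOpposite.op q • y) = (x ⬝ᵥ y) * q := by
  simp only [dotProduct, sm_apply, Finset.sum_mul, mul_assoc]

omit [DecidableEq ι] in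
theorem sm_dot (x y : ι → ℍ[ℝ]) (q : ℍ[ℝ]) :
    star (MulOpposite.op q • x) ⬝ᵥ y = star q * (star x ⬝ᵥ y) := by
  simp only [dotProduct, Pi.star_apply, sm_apply, star_mul, Finset.mul_sum, mul_assoc]

omit [DecidableEq ι] in
theorem dot_self (x : ι → ℍ[ℝ]) : star x ⬝ᵥ x = ((∑ i, normSq (x i) : ℝ) : ℍ[ℝ]) := by
  simp only [dotProduct, Pi.star_apply, Quaternion.star_mul_self]
  exact (map_sum (algebraMap ℝ ℍ[ℝ]) _ _).symm

omit [DecidableEq ι] in
theorem sum_normSq_pos {x : ι → ℍ[ℝ]} (hx : x ≠ 0) : 0 < ∑ i, normSq (x i) := by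
  obtain ⟨i, hi⟩ : ∃ i, x i ≠ 0 := by
    by_contra hcon
    push Not at hcon
    exact hx (funext hcon)
  refine Finset.sum_pos' (fun i _ => Quaternion.normSq_nonneg) ⟨i, Finset.mem_univ i, ?_⟩
  exact lt_of_le_of_ne Quaternion.normSq_nonneg (Ne.symm (by
    rwa [Ne, Quaternion.normSq_eq_zero]))

omit [DecidableEq ι] in
theorem dot_star (x y : ι → ℍ[ℝ]) : star (star x ⬝ᵥ y) = star y ⬝ᵥ x := by
  simp only [dotProduct, Pi.star_apply, star_sum, star_mul, star_star]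

omit [DecidableEq ι] in
theorem dot_mulVec_star (A : Matrix ι ι ℍ[ℝ]) (x y : ι → ℍ[ℝ]) :
    star (A *ᵥ x) ⬝ᵥ y = star x ⬝ᵥ (Aᴴ *ᵥ y) := by
  simp only [dotProduct, Matrix.mulVec, Pi.star_apply, star_sum, star_mul, Finset.sum_mul,
    Finset.mul_sum, Matrix.conjTranspose_apply]
  rw [Finset.sum_comm]
  exact Finset.sum_congr rfl fun i _ => Finset.sum_congr rfl fun j _ => by rw [mul_assoc]

theorem Un.dot {A : Matrix ι ι ℍ[ℝ]} (hA : Un A) (x y : ι → ℍ[ℝ]) :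
    star (A *ᵥ x) ⬝ᵥ (A *ᵥ y) = star x ⬝ᵥ y := by
  rw [dot_mulVec_star, Matrix.mulVec_mulVec, hA.1, Matrix.one_mulVec]

/-- Householder reflection mapping `y` to `x` -/
theorem householder (x y : ι → ℍ[ℝ]) (r s : ℝ) (hx : star x ⬝ᵥ x = (s : ℍ[ℝ]))
    (hy : star y ⬝ᵥ y = (s : ℍ[ℝ])) (hxy : star x ⬝ᵥ y = (r : ℍ[ℝ])) :
    ∃ h : Matrix ι ι ℍ[ℝ], hᴴ = h ∧ h * h = 1 ∧ h *ᵥ y = x := by
  by_cases hu : x - y = 0
  · refine ⟨1, by simp, by simp, ?_⟩
    rw [Matrix.one_mulVec, ← sub_eq_zero.mp hu]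
  set u := x - y with hudef
  have hyx : star y ⬝ᵥ x = (r : ℍ[ℝ]) := by
    rw [← dot_star, hxy, Quaternion.star_coe]
  have hc : star u ⬝ᵥ u = ((2 * (s - r) : ℝ) : ℍ[ℝ]) := by
    rw [hudef, star_sub, sub_dotProduct, dotProduct_sub, dotProduct_sub, hx, hy, hxy, hyx,
      ← Quaternion.coe_sub, ← Quaternion.coe_sub, ← Quaternion.coe_sub]
    congr 1
    ring
  have hc0 : 2 * (s - r) ≠ 0 := by
    have h1 := dot_self u
    rw [hc] at h1
    have h2 := Quaternion.coe_injective h1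
    rw [h2]
    exact (sum_normSq_pos hu).ne'
  set c : ℝ := 2 * (s - r) with hcdef
  set P : Matrix ι ι ℍ[ℝ] := vecMulVec u (star u) with hP
  have hPP : P * P = c • P := by
    rw [hP, vecMulVec_mul_vecMulVec, hc]
    ext1 i j
    simp only [vecMulVec_apply, Pi.smul_apply, smul_eq_mul, Matrix.smul_apply]
    rw [← mul_assoc, ← Quaternion.coe_commutes, mul_assoc, Quaternion.coe_mul_eq_smul]
  have hPs : Pᴴ = P := by rw [hP, conjTranspose_vecMulVec, star_star]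
  refine ⟨1 - (2 / c) • P, ?_, ?_, ?_⟩
  · have e0 : ((2 / c) • P)ᴴ = (2 / c) • Pᴴ := by
      ext1 i j
      rw [conjTranspose_apply, Matrix.smul_apply, Matrix.smul_apply, conjTranspose_apply,
        Quaternion.star_smul]
    rw [conjTranspose_sub, e0, hPs, conjTranspose_one]
  · rw [sub_mul, one_mul, mul_sub, mul_one, smul_mul_assoc, mul_smul_comm, hPP, smul_smul,
      smul_smul]
    have e : 2 / c * (2 / c) * c = 2 / c + 2 / c := by field_simp; ring
    rw [e, add_smul]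
    abel
  · rw [Matrix.sub_mulVec, Matrix.one_mulVec, Matrix.smul_mulVec, hP, vecMulVec_mulVec]
    have e : star u ⬝ᵥ y = ((r - s : ℝ) : ℍ[ℝ]) := by
      rw [hudef, star_sub, sub_dotProduct, hxy, hy]
      push_cast
      rfl
    rw [e, sm_coe, smul_smul]
    have e2 : 2 / c * (r - s) = -1 := by
      have : s - r ≠ 0 := by
        intro h
        exact hc0 (by rw [hcdef, h, mul_zero])
      rw [hcdef]
      field_simp
      ring
    rw [e2, neg_smul, one_smul, sub_neg_eq_add, hudef]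
    abel

theorem Un.of_inv {h : Matrix ι ι ℍ[ℝ]} (h1 : hᴴ = h) (h2 : h * h = 1) : Un h := by
  constructor
  · rw [h1, h2]
  · rw [h1, h2]

/-- a unitary matrix whose first column is proportional to `x` -/
theorem exists_col (x : (Unit ⊕ κ) → ℍ[ℝ]) (hx : x ≠ 0) :
    ∃ (U : Matrix (Unit ⊕ κ) (Unit ⊕ κ) ℍ[ℝ]) (t : ℝ), Un U ∧ t ≠ 0 ∧
      U *ᵥ (Pi.single (Sum.inl ()) 1) = MulOpposite.op (t : ℍ[ℝ]) • x := by
  obtain ⟨p, r, hp, hp', hr⟩ : ∃ (p : ℍ[ℝ]) (r : ℝ), star p * p = 1 ∧ p * star p = 1 ∧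
      x (Sum.inl ()) * p = (r : ℍ[ℝ]) := by
    by_cases h0 : x (Sum.inl ()) = 0
    · exact ⟨1, 0, by simp, by simp, by rw [h0]; simp⟩
    · set a := x (Sum.inl ()) with ha
      have hn : ‖a‖ ≠ 0 := norm_ne_zero_iff.mpr h0
      have key : normSq a = ‖a‖ * ‖a‖ := Quaternion.normSq_eq_norm_mul_self a
      refine ⟨‖a‖⁻¹ • star a, ‖a‖, ?_, ?_, ?_⟩
      · rw [Quaternion.star_smul, star_star, smul_mul_smul_comm, Quaternion.self_mul_star, key]
        rw [← Quaternion.coe_mul_eq_smul, ← Quaternion.coe_mul]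
        have : ‖a‖⁻¹ * ‖a‖⁻¹ * (‖a‖ * ‖a‖) = 1 := by field_simp
        rw [this, Quaternion.coe_one]
      · rw [Quaternion.star_smul, star_star, smul_mul_smul_comm, Quaternion.star_mul_self, key]
        rw [← Quaternion.coe_mul_eq_smul, ← Quaternion.coe_mul]
        have : ‖a‖⁻¹ * ‖a‖⁻¹ * (‖a‖ * ‖a‖) = 1 := by field_simp
        rw [this, Quaternion.coe_one]
      · rw [mul_smul_comm, Quaternion.self_mul_star, key, ← Quaternion.coe_mul_eq_smul,
          ← Quaternion.coe_mul]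
        have : ‖a‖⁻¹ * (‖a‖ * ‖a‖) = ‖a‖ := by field_simp
        rw [this]
  set y := MulOpposite.op p • x with hy
  set s : ℝ := ∑ i, normSq (x i) with hs
  have hs0 : 0 < s := sum_normSq_pos hx
  set t : ℝ := Real.sqrt s with ht
  have ht0 : 0 < t := Real.sqrt_pos.mpr hs0
  have htt : t * t = s := Real.mul_self_sqrt hs0.le
  set e : (Unit ⊕ κ) → ℍ[ℝ] := Pi.single (Sum.inl ()) (t : ℍ[ℝ]) with he
  have hyy : star y ⬝ᵥ y = (s : ℍ[ℝ]) := by
    rw [hy, dot_sm, sm_dot, dot_self, ← hs, ← Quaternion.coe_commutes, mul_assoc, hp, mul_one]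
  have hee : star e ⬝ᵥ e = (s : ℍ[ℝ]) := by
    rw [he, dotProduct_single, Pi.star_apply, Pi.single_eq_same, Quaternion.star_coe,
      ← Quaternion.coe_mul, htt]
  have hey : star e ⬝ᵥ y = ((t * r : ℝ) : ℍ[ℝ]) := by
    have : star e = Pi.single (Sum.inl ()) (t : ℍ[ℝ]) := by
      rw [he]
      ext1 i
      rcases i with i | i
      · simp [Pi.star_apply]
      · simp [Pi.star_apply]
    rw [this, single_dotProduct, hy, sm_apply, hr, Quaternion.coe_mul]
  obtain ⟨h, h1, h2, h3⟩ := householder e y (t * r) s hee hyy hey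
  have h4 : h *ᵥ e = y := by
    rw [← h3, Matrix.mulVec_mulVec, h2, Matrix.one_mulVec]
  -- `h (e₀ t) = x p`
  set D : Matrix (Unit ⊕ κ) (Unit ⊕ κ) ℍ[ℝ] := fromBlocks (c1 (star p)) 0 0 1 with hD
  have hDu : Un D := by
    apply Un.blk
    · constructor
      · rw [c1_ct, c1_mul, star_star, hp', c1_one]
      · rw [c1_ct, c1_mul, star_star, hp, c1_one]
    · exact Un.one
  refine ⟨h * D, t⁻¹, (Un.of_inv h1 h2).mul hDu, inv_ne_zero ht0.ne', ?_⟩
  have e1 : D *ᵥ (Pi.single (Sum.inl ()) 1) =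
      MulOpposite.op (star p) • (MulOpposite.op ((t⁻¹ : ℝ) : ℍ[ℝ]) • e) := by
    ext1 i
    rw [Matrix.mulVec_single_one]
    rcases i with i | i
    · rw [Matrix.col_apply, hD, fromBlocks_apply₁₁, sm_apply, sm_apply, he,
        show (Sum.inl i : Unit ⊕ κ) = Sum.inl () from rfl, Pi.single_eq_same,
        ← Quaternion.coe_mul, mul_inv_cancel₀ ht0.ne', Quaternion.coe_one, one_mul]
      rfl
    · rw [Matrix.col_apply, hD, fromBlocks_apply₂₁, sm_apply, sm_apply, he,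
        Pi.single_eq_of_ne (by simp)]
      simp
  rw [← Matrix.mulVec_mulVec, e1, mulVec_sm, mulVec_sm, h4, hy, smul_smul, smul_smul]
  congr 1
  rw [← MulOpposite.op_mul, ← MulOpposite.op_mul]
  congr 1
  rw [Quaternion.coe_commutes, ← mul_assoc, hp', one_mul]

/-- block structure -/
theorem block_of_col {C : Matrix (Unit ⊕ κ) (Unit ⊕ κ) ℍ[ℝ]} (hC : Un C) (q : ℍ[ℝ])
    (h : C *ᵥ (Pi.single (Sum.inl ()) 1) = MulOpposite.op q • (Pi.single (Sum.inl ()) 1)) :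
    ∃ B : Matrix κ κ ℍ[ℝ], Un B ∧ C = fromBlocks (c1 q) 0 0 B := by
  have h11 : C.toBlocks₁₁ = c1 q := by
    ext1 i j
    have := congrFun h (Sum.inl ())
    rw [Matrix.mulVec_single_one, Matrix.col_apply, sm_apply, Pi.single_eq_same, one_mul] at this
    exact this
  have h21 : C.toBlocks₂₁ = 0 := by
    ext1 i j
    have := congrFun h (Sum.inr i)
    rw [Matrix.mulVec_single_one, Matrix.col_apply, sm_apply, Pi.single_eq_of_ne (by simp),
      zero_mul] at this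
    exact this
  have hC' : C = fromBlocks (c1 q) C.toBlocks₁₂ 0 C.toBlocks₂₂ := by
    conv_lhs => rw [← fromBlocks_toBlocks C, h11, h21]
  set X := C.toBlocks₁₂ with hX
  set B := C.toBlocks₂₂ with hB
  have h1 := hC.1
  have h2 := hC.2
  rw [hC', fromBlocks_conjTranspose, fromBlocks_multiply, ← fromBlocks_one] at h1 h2
  obtain ⟨a1, a2, a3, a4⟩ := fromBlocks_inj.mp h1
  obtain ⟨b1, b2, b3, b4⟩ := fromBlocks_inj.mp h2
  simp only [conjTranspose_zero, Matrix.zero_mul, Matrix.mul_zero, add_zero, zero_add]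
    at a1 a2 a3 a4 b1 b2 b3 b4
  have hX0 : X = 0 := by
    rw [c1_ct, c1_mul] at a1
    have hq : star q * q = 1 := by
      have := congrFun (congrFun a1 ()) ()
      simpa [c1] using this
    have hq2 : q * star q = 1 := by
      rw [Quaternion.self_mul_star]
      rwa [Quaternion.star_mul_self] at hq
    have h3 : c1 q * ((c1 q)ᴴ * X) = 0 := by rw [a2, Matrix.mul_zero]
    rwa [c1_ct, ← Matrix.mul_assoc, c1_mul, hq2, c1_one, Matrix.one_mul] at h3
  refine ⟨B, ⟨?_, b4⟩, ?_⟩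
  · rw [hX0] at a4
    simpa using a4
  · rw [hC', hX0]

/-- deflation -/
theorem deflate {A : Matrix (Unit ⊕ κ) (Unit ⊕ κ) ℍ[ℝ]} (hA : Un A) (x : (Unit ⊕ κ) → ℍ[ℝ])
    (hx : x ≠ 0) (q : ℍ[ℝ]) (h : A *ᵥ x = MulOpposite.op q • x) :
    ∃ (g : Matrix (Unit ⊕ κ) (Unit ⊕ κ) ℍ[ℝ]) (B : Matrix κ κ ℍ[ℝ]), Un g ∧ Un B ∧
      g * A * gᴴ = fromBlocks (c1 q) 0 0 B := by
  obtain ⟨U, t, hU, ht, hUe⟩ := exists_col x hx
  have hC : Un (Uᴴ * A * U) := by
    have := hA.conj hU.ct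
    rwa [conjTranspose_conjTranspose] at this
  obtain ⟨B, hB, hCB⟩ := block_of_col hC q (by
    rw [← Matrix.mulVec_mulVec, ← Matrix.mulVec_mulVec, hUe, mulVec_sm, h, smul_smul,
      ← MulOpposite.op_mul, ← Quaternion.coe_commutes]
    rw [MulOpposite.op_mul, ← smul_smul, mulVec_sm, ← hUe, Matrix.mulVec_mulVec, hU.1,
      Matrix.one_mulVec])
  exact ⟨Uᴴ, B, hU.ct, hB, by rw [conjTranspose_conjTranspose, hCB]⟩

end Pool.Agent.X192.SP
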