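import Pool.Agent.X192.SP.House

set_option autoImplicit false
set_option linter.unusedSectionVars false

open Matrix Quaternion

namespace Pool.Agent.X192.SP

variable {ι κ : Type} [Fintype ι] [DecidableEq ι] [Fintype κ] [DecidableEq κ]

/-- `ℍ^ι` with complex scalars acting on the right -/
def V (ι : Type) : Type := ι → ℍ[ℝ]

noncomputable instance : AddCommGroup (V ι) := inferInstanceAs (AddCommGroup (ι → ℍ[ℝ]))

noncomputable instance : Module ℝ (V ι) := inferInstanceAs (Module ℝ (ι → ℍ[ℝ]))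

instance : Module.Finite ℝ (V ι) := inferInstanceAs (Module.Finite ℝ (ι → ℍ[ℝ]))

instance [Nonempty ι] : Nontrivial (V ι) := inferInstanceAs (Nontrivial (ι → ℍ[ℝ]))

noncomputable instance : SMul ℂ (V ι) := ⟨fun z x => fun i => x i * (z : ℍ[ℝ])⟩

theorem csm_apply (z : ℂ) (x : V ι) (i : ι) : (z • x) i = x i * (z : ℍ[ℝ]) := rfl

theorem vadd_apply (x y : V ι) (i : ι) : (x + y) i = x i + y i := rfl

theorem vzero_apply (i : ι) : (0 : V ι) i = 0 := rfl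

noncomputable instance : Module ℂ (V ι) where
  one_smul x := by
    funext i
    rw [csm_apply, Quaternion.coeComplex_one, mul_one]
  mul_smul a b x := by
    funext i
    rw [csm_apply, csm_apply, csm_apply, mul_comm a b, Quaternion.coeComplex_mul, mul_assoc]
  smul_zero a := by
    funext i
    rw [csm_apply, vzero_apply, zero_mul]
  smul_add a x y := by
    funext i
    rw [csm_apply, vadd_apply, vadd_apply, csm_apply, csm_apply, add_mul]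
  add_smul a b x := by
    funext i
    rw [csm_apply, vadd_apply, csm_apply, csm_apply, Quaternion.coeComplex_add, mul_add]
  zero_smul x := by
    funext i
    rw [csm_apply, vzero_apply, Quaternion.coeComplex_zero, mul_zero]

instance : IsScalarTower ℝ ℂ (V ι) where
  smul_assoc r z x := by
    funext i
    change x i * ((r • z : ℂ) : ℍ[ℝ]) = r • (x i * (z : ℍ[ℝ]))
    rw [← mul_smul_comm]
    congr 1
    ext <;> simp

instance : FiniteDimensional ℂ (V ι) := Module.Finite.of_restrictScalars_finite ℝ ℂ (V ι)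

/-- quaternionic matrices have complex eigenvalues -/
theorem exists_eigen [Nonempty ι] (A : Matrix ι ι ℍ[ℝ]) :
    ∃ (x : ι → ℍ[ℝ]) (z : ℂ), x ≠ 0 ∧ A *ᵥ x = MulOpposite.op (z : ℍ[ℝ]) • x := by
  let f : Module.End ℂ (V ι) :=
    { toFun := fun x => A *ᵥ x
      map_add' := fun x y => Matrix.mulVec_add A x y
      map_smul' := fun z x => mulVec_sm A x (z : ℍ[ℝ]) }
  obtain ⟨z, hz⟩ := Module.End.exists_eigenvalue f
  obtain ⟨x, hx⟩ := hz.exists_hasEigenvector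
  exact ⟨x, z, hx.2, hx.apply_eq_smul⟩

theorem unit_of_un {A : Matrix ι ι ℍ[ℝ]} (hA : Un A) {x : ι → ℍ[ℝ]} {z : ℂ} (hx : x ≠ 0)
    (h : A *ᵥ x = MulOpposite.op (z : ℍ[ℝ]) • x) : star z * z = 1 := by
  have h1 := hA.dot x x
  rw [h, sm_dot, dot_sm, dot_self, star_coe_eq, Quaternion.coe_commutes, ← mul_assoc,
    ← Quaternion.coeComplex_mul] at h1
  have h2 := sum_normSq_pos hx
  set s := ∑ i, normSq (x i) with hs
  have h3 : (((star z * z * s : ℂ)) : ℍ[ℝ]) = ((s : ℂ) : ℍ[ℝ]) := by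
    rw [Quaternion.coeComplex_mul, Quaternion.coeComplex_coe]
    exact h1
  have hinj : Function.Injective (fun w : ℂ => (w : ℍ[ℝ])) := by
    intro a b hab
    have e1 := congrArg (fun q : ℍ[ℝ] => q.re) hab
    have e2 := congrArg (fun q : ℍ[ℝ] => q.imI) hab
    exact Complex.ext (by simpa using e1) (by simpa using e2)
  have h4 := hinj h3
  have h5 : (s : ℂ) ≠ 0 := by exact_mod_cast h2.ne'
  have h6 : (star z * z - 1) * s = 0 := by rw [sub_mul, one_mul, h4, sub_self]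
  rcases mul_eq_zero.mp h6 with h7 | h7
  · exact sub_eq_zero.mp h7
  · exact absurd h7 h5

theorem deflate_one {A : Matrix (Unit ⊕ κ) (Unit ⊕ κ) ℍ[ℝ]} (hA : Un A) :
    ∃ (g : Matrix (Unit ⊕ κ) (Unit ⊕ κ) ℍ[ℝ]) (z : ℂ) (B : Matrix κ κ ℍ[ℝ]), Un g ∧ Un B ∧
      star z * z = 1 ∧ g * A * gᴴ = fromBlocks (c1 (z : ℍ[ℝ])) 0 0 B := by
  obtain ⟨x, z, hx, h⟩ := exists_eigen A
  obtain ⟨g, B, hg, hB, e⟩ := deflate hA x hx _ h
  exact ⟨g, z, B, hg, hB, unit_of_un hA hx h, e⟩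

theorem conj_conj (A g g' : Matrix ι ι ℍ[ℝ]) :
    g' * (g * A * gᴴ) * g'ᴴ = (g' * g) * A * (g' * g)ᴴ := by
  rw [conjTranspose_mul]
  simp only [mul_assoc]

theorem blk_conj (a : Matrix κ κ ℍ[ℝ]) (B g : Matrix ι ι ℍ[ℝ]) :
    fromBlocks (1 : Matrix κ κ ℍ[ℝ]) 0 0 g * fromBlocks a 0 0 B *
      (fromBlocks (1 : Matrix κ κ ℍ[ℝ]) 0 0 g)ᴴ = fromBlocks a 0 0 (g * B * gᴴ) := by
  rw [fromBlocks_conjTranspose, fromBlocks_multiply, fromBlocks_multiply]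
  simp

theorem blk_conj' (a : Matrix κ κ ℍ[ℝ]) (B g : Matrix ι ι ℍ[ℝ]) :
    fromBlocks g 0 0 (1 : Matrix κ κ ℍ[ℝ]) * fromBlocks B 0 0 a *
      (fromBlocks g 0 0 (1 : Matrix κ κ ℍ[ℝ]))ᴴ = fromBlocks (g * B * gᴴ) 0 0 a := by
  rw [fromBlocks_conjTranspose, fromBlocks_multiply, fromBlocks_multiply]
  simp

theorem deflate_two {A : Matrix (Unit ⊕ (Unit ⊕ κ)) (Unit ⊕ (Unit ⊕ κ)) ℍ[ℝ]} (hA : Un A) :
    ∃ (g : Matrix (Unit ⊕ (Unit ⊕ κ)) (Unit ⊕ (Unit ⊕ κ)) ℍ[ℝ]) (z₁ z₂ : ℂ)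
      (C : Matrix κ κ ℍ[ℝ]), Un g ∧ Un C ∧ star z₁ * z₁ = 1 ∧ star z₂ * z₂ = 1 ∧
      g * A * gᴴ = fromBlocks (c1 (z₁ : ℍ[ℝ])) 0 0 (fromBlocks (c1 (z₂ : ℍ[ℝ])) 0 0 C) := by
  obtain ⟨g, z₁, B, hg, hB, hz₁, e⟩ := deflate_one hA
  obtain ⟨g', z₂, C, hg', hC, hz₂, e'⟩ := deflate_one hB
  refine ⟨fromBlocks 1 0 0 g' * g, z₁, z₂, C, (Un.one.blk hg').mul hg, hC, hz₁, hz₂, ?_⟩
  rw [← conj_conj, e, blk_conj, e']

theorem assoc_eq (a b : ℍ[ℝ]) (C : Matrix κ κ ℍ[ℝ]) :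
    (fromBlocks (c1 a) 0 0 (fromBlocks (c1 b) 0 0 C)).submatrix (Equiv.sumAssoc Unit Unit κ)
      (Equiv.sumAssoc Unit Unit κ) = fromBlocks (m2 a 0 0 b) 0 0 C := by
  ext1 i j
  rcases i with (i | i) | i <;> rcases j with (j | j) | j <;> rfl

theorem assoc_eq' (a : Matrix Unit Unit ℍ[ℝ]) (b : Matrix Unit Unit ℍ[ℝ])
    (C : Matrix κ κ ℍ[ℝ]) :
    (fromBlocks a 0 0 (fromBlocks b 0 0 C)).submatrix (Equiv.sumAssoc Unit Unit κ)
      (Equiv.sumAssoc Unit Unit κ) = fromBlocks (fromBlocks a 0 0 b) 0 0 C := by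
  ext1 i j
  rcases i with (i | i) | i <;> rcases j with (j | j) | j <;> rfl

theorem even_step (hκ : ∀ C : Matrix κ κ ℍ[ℝ], Un C → Pr 4 C)
    (A : Matrix (Unit ⊕ (Unit ⊕ κ)) (Unit ⊕ (Unit ⊕ κ)) ℍ[ℝ]) (hA : Un A) : Pr 4 A := by
  obtain ⟨g, z₁, z₂, C, hg, hC, hz₁, hz₂, e⟩ := deflate_two hA
  refine Pr.of_conj hg ?_
  rw [e]
  refine Pr.of_re (Equiv.sumAssoc Unit Unit κ) ?_
  rw [assoc_eq]
  exact (pr_diag hz₁ hz₂).blk (hκ C hC)

theorem even_case (m : ℕ) : ∀ (κ : Type) [Fintype κ] [DecidableEq κ], Fintype.card κ = 2 * m →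
    ∀ A : Matrix κ κ ℍ[ℝ], Un A → Pr 4 A := by
  induction m with
  | zero =>
    intro κ _ _ hκ A hA
    have : IsEmpty κ := Fintype.card_eq_zero_iff.mp (by omega)
    rw [Subsingleton.elim A 1]
    exact Pr.one
  | succ m ih =>
    intro κ _ _ hκ A hA
    have hc : Fintype.card (Unit ⊕ (Unit ⊕ Fin (2 * m))) = Fintype.card κ := by
      simp only [Fintype.card_sum, Fintype.card_unit, Fintype.card_fin, hκ]
      omega
    have e := Fintype.equivOfCardEq hc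
    exact Pr.of_re e (even_step (ih (Fin (2 * m)) (by simp)) _ (hA.re e))

/-- a vector `x` with `x* diag(z₁, z₂) x` real -/
theorem exists_real (z₁ z₂ : ℂ) : ∃ (x : Unit ⊕ Unit → ℍ[ℝ]) (r : ℝ), x ≠ 0 ∧
    star x ⬝ᵥ (m2 (z₁ : ℍ[ℝ]) 0 0 (z₂ : ℍ[ℝ]) *ᵥ x) = (r : ℍ[ℝ]) := by
  obtain ⟨q, z', hq0, hq, hz'⟩ : ∃ (q : ℍ[ℝ]) (z' : ℂ), q ≠ 0 ∧
      star q * (z₂ : ℍ[ℝ]) * q = (z' : ℍ[ℝ]) ∧ z₁.im * z'.im ≤ 0 := by
    rcases le_total (z₁.im * z₂.im) 0 with h | h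
    · exact ⟨1, z₂, one_ne_zero, by simp, h⟩
    · refine ⟨jq, star z₂, ?_, ?_, ?_⟩
      · intro h'
        have := congrArg (fun q : ℍ[ℝ] => q.imJ) h'
        simp [jq_imJ] at this
      · rw [star_jq, neg_mul, neg_mul, jq_conj, mul_assoc, jq_sq, mul_neg, mul_one, neg_neg,
          star_coe_eq]
      · rw [show (star z₂).im = - z₂.im from Complex.conj_im z₂]
        linarith
  have key : ∀ a b : ℝ, star (Sum.elim (fun _ => (a : ℍ[ℝ])) (fun _ => q * (b : ℍ[ℝ])) :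
      Unit ⊕ Unit → ℍ[ℝ]) ⬝ᵥ (m2 (z₁ : ℍ[ℝ]) 0 0 (z₂ : ℍ[ℝ]) *ᵥ
        (Sum.elim (fun _ => (a : ℍ[ℝ])) (fun _ => q * (b : ℍ[ℝ])))) =
      (((a ^ 2 : ℝ) * z₁ + (b ^ 2 : ℝ) * z' : ℂ) : ℍ[ℝ]) := by
    intro a b
    simp only [dotProduct, Matrix.mulVec, Fintype.sum_sum_type, Finset.univ_unique,
      Finset.sum_singleton, Pi.star_apply, Sum.elim_inl, Sum.elim_inr, m2, fromBlocks_apply₁₁,
      fromBlocks_apply₁₂, fromBlocks_apply₂₁, fromBlocks_apply₂₂, c1, zero_mul, add_zero,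
      zero_add, Quaternion.star_coe, star_mul]
    have e1 : (a : ℍ[ℝ]) * ((z₁ : ℍ[ℝ]) * (a : ℍ[ℝ])) =
        (((a ^ 2 : ℝ) * z₁ : ℂ) : ℍ[ℝ]) := by
      rw [Quaternion.coeComplex_mul, Quaternion.coeComplex_coe, ← Quaternion.coe_commutes,
        ← mul_assoc, ← Quaternion.coe_mul]
      congr 2
      ring
    have e2 : (b : ℍ[ℝ]) * star q * ((z₂ : ℍ[ℝ]) * (q * (b : ℍ[ℝ]))) =
        (((b ^ 2 : ℝ) * z' : ℂ) : ℍ[ℝ]) := by
      rw [Quaternion.coeComplex_mul, Quaternion.coeComplex_coe, ← hq]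
      calc (b : ℍ[ℝ]) * star q * ((z₂ : ℍ[ℝ]) * (q * (b : ℍ[ℝ])))
          = (b : ℍ[ℝ]) * ((star q * (z₂ : ℍ[ℝ]) * q) * (b : ℍ[ℝ])) := by
            simp only [mul_assoc]
        _ = ((b ^ 2 : ℝ) : ℍ[ℝ]) * (star q * (z₂ : ℍ[ℝ]) * q) := by
            rw [← Quaternion.coe_commutes, ← mul_assoc, ← Quaternion.coe_mul]
            congr 2
            ring
    rw [e1, e2, ← Quaternion.coeComplex_add]
  have hreal : ∀ w : ℂ, w.im = 0 → (w : ℍ[ℝ]) = ((w.re : ℝ) : ℍ[ℝ]) := by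
    intro w hw
    ext <;> simp [hw]
  by_cases h0 : z₁.im = 0
  · refine ⟨_, _, ?_, (key 1 0).trans (hreal _ ?_)⟩
    · intro h
      have := congrFun h (Sum.inl ())
      simp at this
    · simp [h0]
  · refine ⟨_, _, ?_, (key (Real.sqrt |z'.im|) (Real.sqrt |z₁.im|)).trans (hreal _ ?_)⟩
    · intro h
      have h1 := congrFun h (Sum.inr ())
      simp only [Sum.elim_inr, Pi.zero_apply, mul_eq_zero, hq0, false_or] at h1
      have h2 : Real.sqrt |z₁.im| = 0 := Quaternion.coe_injective (by rw [h1]; simp)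
      rw [Real.sqrt_eq_zero (abs_nonneg _), abs_eq_zero] at h2
      exact h0 h2
    · rw [Real.sq_sqrt (abs_nonneg _), Real.sq_sqrt (abs_nonneg _)]
      simp only [Complex.add_im, Complex.mul_im, Complex.ofReal_re, Complex.ofReal_im, zero_mul,
        add_zero]
      rcases lt_or_gt_of_ne h0 with h | h
      · have h' : 0 ≤ z'.im := by nlinarith
        rw [abs_of_nonneg h', abs_of_neg h]
        ring
      · have h' : z'.im ≤ 0 := by nlinarith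
        rw [abs_of_nonpos h', abs_of_pos h]
        ring

/-- `diag(z₁, z₂) = h k` with `h` an involution and `k` conjugate to `diag(1, b)` -/
theorem pair_split {z₁ z₂ : ℂ} (h₁ : star z₁ * z₁ = 1) (h₂ : star z₂ * z₂ = 1) :
    ∃ (h g : Matrix (Unit ⊕ Unit) (Unit ⊕ Unit) ℍ[ℝ]) (b : Matrix Unit Unit ℍ[ℝ]),
      Un h ∧ h * h = 1 ∧ Un g ∧ Un b ∧
      g * (h * m2 (z₁ : ℍ[ℝ]) 0 0 (z₂ : ℍ[ℝ])) * gᴴ = fromBlocks (c1 1) 0 0 b := by
  obtain ⟨x, r, hx, hr⟩ := exists_real z₁ z₂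
  set D := m2 (z₁ : ℍ[ℝ]) 0 0 (z₂ : ℍ[ℝ]) with hD
  have hu : ∀ z : ℂ, star z * z = 1 → star (z : ℍ[ℝ]) * (z : ℍ[ℝ]) = 1 := by
    intro z hz
    rw [star_coe_eq, ← Quaternion.coeComplex_mul, hz, Quaternion.coeComplex_one]
  have hu' : ∀ z : ℂ, star z * z = 1 → (z : ℍ[ℝ]) * star (z : ℍ[ℝ]) = 1 := by
    intro z hz
    rw [star_coe_eq, ← Quaternion.coeComplex_mul, mul_comm, hz, Quaternion.coeComplex_one]
  have hDu : Un D := by
    constructor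
    · rw [hD, m2_ct, m2_mul]
      simp only [star_zero, mul_zero, zero_mul, add_zero, zero_add, hu _ h₁, hu _ h₂, m2_one]
    · rw [hD, m2_ct, m2_mul]
      simp only [star_zero, mul_zero, zero_mul, add_zero, zero_add, hu' _ h₁, hu' _ h₂, m2_one]
  obtain ⟨h, hh1, hh2, hh3⟩ := householder x (D *ᵥ x) r (∑ i, normSq (x i)) (dot_self x)
    (by rw [hDu.dot, dot_self]) hr
  have hhu := Un.of_inv hh1 hh2
  obtain ⟨g, b, hg, hb, e⟩ := deflate (hhu.mul hDu) x hx 1 (by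
    rw [← Matrix.mulVec_mulVec, hh3, MulOpposite.op_one, one_smul])
  exact ⟨h, g, b, hhu, hh2, hg, hb, e⟩

theorem odd_step (m : ℕ) (hκ : Fintype.card κ = 2 * m + 1)
    (A : Matrix (Unit ⊕ (Unit ⊕ κ)) (Unit ⊕ (Unit ⊕ κ)) ℍ[ℝ]) (hA : Un A) : Pr 5 A := by
  obtain ⟨g, z₁, z₂, C, hg, hC, hz₁, hz₂, e⟩ := deflate_two hA
  refine Pr.of_conj hg ?_
  rw [e]
  refine Pr.of_re (Equiv.sumAssoc Unit Unit κ) ?_
  rw [assoc_eq]
  obtain ⟨h, g', b, hh, hh2, hg', hb, e'⟩ := pair_split hz₁ hz₂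
  set D := m2 (z₁ : ℍ[ℝ]) 0 0 (z₂ : ℍ[ℝ]) with hD
  have e1 : fromBlocks D 0 0 C = fromBlocks h 0 0 (1 : Matrix κ κ ℍ[ℝ]) *
      fromBlocks (h * D) 0 0 C := by
    rw [fromBlocks_multiply, ← mul_assoc, hh2]
    simp
  rw [e1]
  refine Pr.mul (k := 1) (l := 4) (Pr.inv (hh.blk Un.one) ?_) ?_
  · rw [fromBlocks_multiply, hh2]
    simp [fromBlocks_one]
  refine Pr.of_conj (hg'.blk (Un.one (ι := κ))) ?_
  rw [blk_conj', e', ← assoc_eq']
  refine Pr.re ?_ _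
  rw [c1_one]
  refine Pr.blk Pr.one ?_
  exact even_case (m + 1) (Unit ⊕ κ) (by
    simp only [Fintype.card_sum, Fintype.card_unit, hκ]
    omega) _ (hb.blk hC)

theorem main (hι : 2 ≤ Fintype.card ι) (A : Matrix ι ι ℍ[ℝ]) (hA : Un A) : Pr 5 A := by
  rcases Nat.even_or_odd' (Fintype.card ι) with ⟨m, hm | hm⟩
  · have h := Pr.mul (even_case m ι hm A hA) (Pr.one (k := 1))
    rwa [mul_one] at h
  · obtain ⟨m', rfl⟩ : ∃ m', m = m' + 1 := ⟨m - 1, by omega⟩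
    have hc : Fintype.card (Unit ⊕ (Unit ⊕ Fin (2 * m' + 1))) = Fintype.card ι := by
      simp only [Fintype.card_sum, Fintype.card_unit, Fintype.card_fin, hm]
      omega
    have e := Fintype.equivOfCardEq hc
    exact Pr.of_re e (odd_step m' (by simp) _ (hA.re e))

end Pool.Agent.X192.SP
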