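import Pool.Agent.X192.SP.Main

set_option autoImplicit false
set_option linter.unusedSectionVars false

open Matrix Quaternion

namespace Pool.Agent.X192.SP

variable {ι : Type} [Fintype ι] [DecidableEq ι]

/-- first complex component of a quaternion `a + b j` -/
def ca (q : ℍ[ℝ]) : ℂ := ⟨q.re, q.imI⟩

/-- second complex component of a quaternion `a + b j` -/
def cb (q : ℍ[ℝ]) : ℂ := ⟨q.imJ, q.imK⟩

theorem ca_re (q : ℍ[ℝ]) : (ca q).re = q.re := rfl
theorem ca_im (q : ℍ[ℝ]) : (ca q).im = q.imI := rfl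
theorem cb_re (q : ℍ[ℝ]) : (cb q).re = q.imJ := rfl
theorem cb_im (q : ℍ[ℝ]) : (cb q).im = q.imK := rfl

theorem ca_mul (p q : ℍ[ℝ]) : ca (p * q) = ca p * ca q + cb p * -(star (cb q)) := by
  apply Complex.ext
  · simp [ca_re, ca_im, cb_re, cb_im]
    ring
  · simp [ca_re, ca_im, cb_re, cb_im]
    ring

theorem cb_mul (p q : ℍ[ℝ]) : cb (p * q) = ca p * cb q + cb p * star (ca q) := by
  apply Complex.ext
  · simp [ca_re, ca_im, cb_re, cb_im]
    ring
  · simp [ca_re, ca_im, cb_re, cb_im]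
    ring

theorem ca_star (p : ℍ[ℝ]) : ca (star p) = star (ca p) := by
  apply Complex.ext <;> simp [ca_re, ca_im]

theorem cb_star (p : ℍ[ℝ]) : cb (star p) = -(cb p) := by
  apply Complex.ext <;> simp [cb_re, cb_im]

/-- `ca` as an additive map -/
def caH : ℍ[ℝ] →+ ℂ where
  toFun := ca
  map_zero' := by apply Complex.ext <;> simp [ca_re, ca_im]
  map_add' x y := by apply Complex.ext <;> simp [ca_re, ca_im]

/-- `cb` as an additive map -/
def cbH : ℍ[ℝ] →+ ℂ where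
  toFun := cb
  map_zero' := by apply Complex.ext <;> simp [cb_re, cb_im]
  map_add' x y := by apply Complex.ext <;> simp [cb_re, cb_im]

theorem ca_sum (f : ι → ℍ[ℝ]) : ca (∑ i, f i) = ∑ i, ca (f i) := map_sum caH f _

theorem cb_sum (f : ι → ℍ[ℝ]) : cb (∑ i, f i) = ∑ i, cb (f i) := map_sum cbH f _

theorem ca_one : ca 1 = 1 := by apply Complex.ext <;> simp [ca_re, ca_im]
theorem cb_one : cb 1 = 0 := by apply Complex.ext <;> simp [cb_re, cb_im]
theorem ca_zero : ca 0 = 0 := by apply Complex.ext <;> simp [ca_re, ca_im]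
theorem cb_zero : cb 0 = 0 := by apply Complex.ext <;> simp [cb_re, cb_im]

/-- the embedding of quaternionic matrices in complex matrices of twice the size -/
def phi (Q : Matrix ι ι ℍ[ℝ]) : Matrix (ι ⊕ ι) (ι ⊕ ι) ℂ :=
  fromBlocks (Matrix.of fun i j => ca (Q i j)) (Matrix.of fun i j => cb (Q i j))
    (Matrix.of fun i j => -star (cb (Q i j))) (Matrix.of fun i j => star (ca (Q i j)))

theorem phi_ll (Q : Matrix ι ι ℍ[ℝ]) (i j : ι) : phi Q (Sum.inl i) (Sum.inl j) = ca (Q i j) := rfl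
theorem phi_lr (Q : Matrix ι ι ℍ[ℝ]) (i j : ι) : phi Q (Sum.inl i) (Sum.inr j) = cb (Q i j) := rfl
theorem phi_rl (Q : Matrix ι ι ℍ[ℝ]) (i j : ι) :
    phi Q (Sum.inr i) (Sum.inl j) = -star (cb (Q i j)) := rfl
theorem phi_rr (Q : Matrix ι ι ℍ[ℝ]) (i j : ι) :
    phi Q (Sum.inr i) (Sum.inr j) = star (ca (Q i j)) := rfl

theorem phi_mul (P Q : Matrix ι ι ℍ[ℝ]) : phi (P * Q) = phi P * phi Q := by
  ext1 i j
  rw [Matrix.mul_apply]
  rcases i with i | i <;> rcases j with j | j <;>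
    simp only [phi_ll, phi_lr, phi_rl, phi_rr, Fintype.sum_sum_type, Matrix.mul_apply, ca_sum,
      cb_sum, ca_mul, cb_mul]
  · rw [Finset.sum_add_distrib]
  · rw [Finset.sum_add_distrib]
  · rw [star_sum, ← Finset.sum_neg_distrib, ← Finset.sum_add_distrib]
    refine Finset.sum_congr rfl fun k _ => ?_
    simp only [star_add, star_mul', star_star]
    ring
  · rw [star_sum, ← Finset.sum_add_distrib]
    refine Finset.sum_congr rfl fun k _ => ?_
    simp only [star_add, star_mul', star_star, star_neg]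
    ring

theorem phi_one : phi (1 : Matrix ι ι ℍ[ℝ]) = 1 := by
  ext1 i j
  rcases i with i | i <;> rcases j with j | j
  · simp only [phi_ll, Matrix.one_apply, Sum.inl.injEq]
    split_ifs
    · exact ca_one
    · exact ca_zero
  · simp only [phi_lr, Matrix.one_apply, reduceCtorEq, if_false]
    split_ifs
    · exact cb_one
    · exact cb_zero
  · simp only [phi_rl, Matrix.one_apply, reduceCtorEq, if_false]
    split_ifs
    · rw [cb_one, star_zero, neg_zero]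
    · rw [cb_zero, star_zero, neg_zero]
  · simp only [phi_rr, Matrix.one_apply, Sum.inr.injEq]
    split_ifs
    · rw [ca_one, star_one]
    · rw [ca_zero, star_zero]

theorem phi_ct (Q : Matrix ι ι ℍ[ℝ]) : phi Qᴴ = (phi Q)ᴴ := by
  ext1 i j
  rcases i with i | i <;> rcases j with j | j <;>
    simp only [phi_ll, phi_lr, phi_rl, phi_rr, conjTranspose_apply, ca_star, cb_star, star_neg,
      star_star, neg_neg]

theorem phi_inj {P Q : Matrix ι ι ℍ[ℝ]} (h : phi P = phi Q) : P = Q := by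
  ext1 i j
  have h1 : ca (P i j) = ca (Q i j) := congrFun (congrFun h (Sum.inl i)) (Sum.inl j)
  have h2 : cb (P i j) = cb (Q i j) := congrFun (congrFun h (Sum.inl i)) (Sum.inr j)
  ext
  · exact congrArg Complex.re h1
  · exact congrArg Complex.im h1
  · exact congrArg Complex.re h2
  · exact congrArg Complex.im h2

theorem Un.phi {Q : Matrix ι ι ℍ[ℝ]} (h : Un Q) : Un (phi Q) := by
  constructor
  · rw [← phi_ct, ← phi_mul, h.1, phi_one]
  · rw [← phi_ct, ← phi_mul, h.2, phi_one]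

theorem Un.of_phi {Q : Matrix ι ι ℍ[ℝ]} (h : Un (SP.phi Q)) : Un Q := by
  constructor
  · apply phi_inj
    rw [phi_mul, phi_ct, phi_one, h.1]
  · apply phi_inj
    rw [phi_mul, phi_ct, phi_one, h.2]

/-- the symplectic form -/
def Jm (ι : Type) [DecidableEq ι] : Matrix (ι ⊕ ι) (ι ⊕ ι) ℂ := fromBlocks 0 1 (-1) 0

theorem phi_J (Q : Matrix ι ι ℍ[ℝ]) : (phi Q)ᵀ * Jm ι = Jm ι * (phi Q)ᴴ := by
  rw [phi, Jm, fromBlocks_transpose, fromBlocks_conjTranspose, fromBlocks_multiply,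
    fromBlocks_multiply]
  simp only [Matrix.mul_zero, Matrix.mul_neg, Matrix.mul_one, Matrix.zero_mul, Matrix.one_mul,
    Matrix.neg_mul, zero_add, add_zero]
  congr 1
  all_goals
    ext1 i j
    simp [conjTranspose_apply]

theorem phi_sp {Q : Matrix ι ι ℍ[ℝ]} (h : Un Q) : (phi Q)ᵀ * Jm ι * phi Q = Jm ι := by
  rw [phi_J, Matrix.mul_assoc, h.phi.1, Matrix.mul_one]

theorem exists_phi {A : Matrix (ι ⊕ ι) (ι ⊕ ι) ℂ} (hA : Un A) (hJ : Aᵀ * Jm ι * A = Jm ι) :
    ∃ Q : Matrix ι ι ℍ[ℝ], Un Q ∧ A = phi Q := by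
  have h1 : Aᵀ * Jm ι = Jm ι * Aᴴ := by
    calc Aᵀ * Jm ι = Aᵀ * Jm ι * (A * Aᴴ) := by rw [hA.2, Matrix.mul_one]
      _ = (Aᵀ * Jm ι * A) * Aᴴ := by rw [← Matrix.mul_assoc]
      _ = Jm ι * Aᴴ := by rw [hJ]
  have h2 : A = fromBlocks A.toBlocks₁₁ A.toBlocks₁₂ A.toBlocks₂₁ A.toBlocks₂₂ :=
    (fromBlocks_toBlocks A).symm
  set a := A.toBlocks₁₁ with ha
  set b := A.toBlocks₁₂ with hb
  set c := A.toBlocks₂₁ with hc
  set d := A.toBlocks₂₂ with hd
  rw [h2, Jm, fromBlocks_transpose, fromBlocks_conjTranspose, fromBlocks_multiply,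
    fromBlocks_multiply] at h1
  obtain ⟨e1, e2, e3, e4⟩ := fromBlocks_inj.mp h1
  simp only [Matrix.mul_zero, Matrix.mul_neg, Matrix.mul_one, Matrix.zero_mul, Matrix.one_mul,
    Matrix.neg_mul, zero_add, add_zero] at e1 e2 e3 e4
  have hc' : ∀ i j, c i j = -star (b i j) := by
    intro i j
    have := congrFun (congrFun e1 j) i
    simp only [Matrix.neg_apply, Matrix.transpose_apply, Matrix.conjTranspose_apply] at this
    rw [← this, neg_neg]
  have hd' : ∀ i j, d i j = star (a i j) := by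
    intro i j
    have := congrFun (congrFun e3 j) i
    simp only [Matrix.neg_apply, Matrix.transpose_apply, Matrix.conjTranspose_apply, neg_inj]
      at this
    exact this
  let Q : Matrix ι ι ℍ[ℝ] := fun i j => ⟨(a i j).re, (a i j).im, (b i j).re, (b i j).im⟩
  have hQ : A = phi Q := by
    rw [h2, phi]
    congr 1
    · ext1 i j
      rw [hc' i j]
      rfl
    · ext1 i j
      rw [hd' i j]
      rfl
  refine ⟨Q, Un.of_phi (by rwa [← hQ]), hQ⟩

/-- the main theorem for complex matrices -/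
theorem main_complex (hι : 2 ≤ Fintype.card ι) {A : Matrix (ι ⊕ ι) (ι ⊕ ι) ℂ} (hA : Un A)
    (hJ : Aᵀ * Jm ι * A = Jm ι) : ∃ B : Fin 5 → Matrix (ι ⊕ ι) (ι ⊕ ι) ℂ,
      (∀ i, Un (B i) ∧ (B i)ᵀ * Jm ι * B i = Jm ι ∧ B i * B i = 1) ∧
      A = B 0 * B 1 * B 2 * B 3 * B 4 := by
  obtain ⟨Q, hQ, rfl⟩ := exists_phi hA hJ
  obtain ⟨B₁, C₁, hB₁, hB₁', ⟨B₂, C₂, hB₂, hB₂', ⟨B₃, C₃, hB₃, hB₃', ⟨B₄, C₄, hB₄, hB₄',
    ⟨B₅, C₅, hB₅, hB₅', h0, h5⟩, h4⟩, h3⟩, h2⟩, h1⟩ := main hι Q hQ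
  refine ⟨![phi B₁, phi B₂, phi B₃, phi B₄, phi B₅], ?_, ?_⟩
  · intro i
    fin_cases i
    · exact ⟨hB₁.phi, phi_sp hB₁, by
        change phi B₁ * phi B₁ = 1; rw [← phi_mul, hB₁', phi_one]⟩
    · exact ⟨hB₂.phi, phi_sp hB₂, by
        change phi B₂ * phi B₂ = 1; rw [← phi_mul, hB₂', phi_one]⟩
    · exact ⟨hB₃.phi, phi_sp hB₃, by
        change phi B₃ * phi B₃ = 1; rw [← phi_mul, hB₃', phi_one]⟩
    · exact ⟨hB₄.phi, phi_sp hB₄, by
        change phi B₄ * phi B₄ = 1; rw [← phi_mul, hB₄', phi_one]⟩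
    · exact ⟨hB₅.phi, phi_sp hB₅, by
        change phi B₅ * phi B₅ = 1; rw [← phi_mul, hB₅', phi_one]⟩
  · change phi Q = phi B₁ * phi B₂ * phi B₃ * phi B₄ * phi B₅
    rw [← phi_mul, ← phi_mul, ← phi_mul, ← phi_mul]
    congr 1
    rw [h1, h2, h3, h4, h5, show C₅ = 1 from h0]
    simp only [mul_assoc, mul_one]

end Pool.Agent.X192.SP
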